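import Pool.Agent.Work.MP_d3ab46_al.Defs
import Pool.Agent.Work.MP_d3ab46_al.J.Parts

/-!
For every finite field `F` of characteristic `p`: the exact value of the largest `p`-length of a
`p`-solvable subgroup of `GL(n, F)` for every `n ≥ 2`, and the limit of its ratio to `log₂ n`,
which is `1 / log₂ (max p 3)` and not `1`.
-/

namespace Pool.Agent.Results.MP_d3ab46_al.ExactAndLimit

open Filter Topology Pool.Agent.Work.MP_d3ab46_al

theorem result (p : ℕ) [Fact p.Prime] (F : Type) [Field F] [Finite F] [CharP F p] :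
    (∀ n : ℕ, 2 ≤ n → maxLength p F n = 1 + Nat.log (max p 3)
      (if Nat.card F = 2 then 3 * (n - 1) / 2
        else if p = 2 then 9 * (n - 1) / 4
        else if ∃ m < p, 2 ^ m + 1 = p then p * (n - 1) / (p - 1)
        else n - 1)) ∧
    Tendsto (fun n : ℕ => (maxLength p F n : ℝ) / Real.logb 2 n) atTop
        (𝓝 (Real.logb 2 (max p 3 : ℕ))⁻¹) ∧
      ¬ Tendsto (fun n : ℕ => (maxLength p F n : ℝ) / Real.logb 2 n) atTop (𝓝 1) :=
  ⟨fun n hn => J.ExactValue.result p F n hn, J.TrueLimit.result p F⟩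

end Pool.Agent.Results.MP_d3ab46_al.ExactAndLimit
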